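import Mathlib
import Pool.Agent.Run7.h382.Cayley

open Run7.h382

/-- Let `R` be a finite abelian group and `S` a symmetric subset not containing zero. The Cayley
graph `cay S` (vertices `u`, `v` adjacent when `u - v` lies in `S`) is compact with vertex
stabiliser contained in `{id, -id}` if and only if equal eigenvalues `∑ s ∈ S, χ s = ∑ s ∈ S, ψ s`
of two nontrivial characters force `ψ = χ` or `ψ = χ⁻¹`. -/
theorem Pool.Agent.Results.MP_3cc314_lc.AbelianCayley.result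
    {R : Type*} [AddCommGroup R] [Fintype R] [DecidableEq R]
    (S : Finset R) (h0 : (0 : R) ∉ S) (hneg : ∀ s ∈ S, -s ∈ S) :
    (CompactGraph (cay S h0 hneg) ∧ ∀ g : Equiv.Perm R, IsAut (cay S h0 hneg) g → g 0 = 0 →
      (∀ v, g v = v) ∨ (∀ v, g v = -v)) ↔
    ∀ χ ψ : AddChar R ℂ, χ ≠ 1 → ψ ≠ 1 → ∑ s ∈ S, χ s = ∑ s ∈ S, ψ s → ψ = χ ∨ ψ = χ⁻¹ :=
  ⟨fun h χ ψ hχ hψ he => cay_nec h.1 h.2 χ ψ hχ hψ he, fun h => cay_suff h⟩
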