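import Mathlib
import Pool.Agent.Run7.h382.LinkedSuff

open Run7.h382

/-- Let `π` be the coarsest equitable colouring of `G`. Suppose that every colour class `C` with at
least four vertices induces an empty or a complete graph and that every vertex outside `C` has
`0`, `1`, `|C| - 1` or `|C|` neighbours in `C`; nothing is required of classes with at most three
vertices. Then `G` is compact if and only if parallel transport along closed walks of linked
classes that brings one vertex of a class back to itself brings every vertex of the class back to
itself. -/
theorem Pool.Agent.Results.MP_3cc314_lc.LinkedClasses.result
    {V ι : Type*} [Fintype V] [DecidableEq V] [DecidableEq ι]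
    (G : SimpleGraph V) [DecidableRel G.Adj] (π : V → ι)
    (hπ : CoarsestEquitable G π) (hL : MatchingLinked G π) :
    CompactGraph G ↔
      ∀ u v w : V, Relation.ReflTransGen (Step G π) (u, v) (u, w) → v = w :=
  ⟨fun hc u v w h => linked_nec hπ hc u v w h, fun hM => linked_suff hπ hL hM⟩
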